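import Pool.Agent.Helper54_BC.Kit

/-!
# BC, module LBD: the lower bound of a stable configuration
-/

set_option autoImplicit false

open Finset

noncomputable section

namespace Pool.Agent.BC.H54

/-- the case `|b i₀| = 1`, `|b i| ≤ 1` -/
theorem lbd_core (hhb : HhbStmt) (iso : IsoStmt) (jen : JenStmt) {X : Type}
    [NormedAddCommGroup X] [NormedSpace ℝ X] (x : ℕ → ℤ → X) (hx : IsT x) {t : ℕ} (n : ℕ)
    (c : Fin t → ℤ) (κ δ : ℝ) (_hδ : 0 < δ) (hκ : κ ≤ δ ^ 2 / 2) (hs : Stab x κ n c)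
    (hh' : ∀ i, δ ^ 2 ≤ hh x n (c i)) (b : Fin t → ℝ) (hb : ∀ i, |b i| ≤ 1) (i₀ : Fin t)
    (hb₀ : |b i₀| = 1) : δ / 2 ≤ ‖J x n c b‖ := by
  classical
  have hsq : b i₀ * b i₀ = 1 := by
    rw [← abs_mul_abs_self, hb₀]; norm_num
  set w : X := ∑ l ∈ univ.erase i₀, b l • x n (c l) with hw
  have key : ∀ ε : ℝ, 0 < ε → δ ^ 2 - ε ≤ ‖J x n c b‖ ^ 2 + κ := by
    intro ε hε
    obtain ⟨m, hm⟩ := (hhb X x hx).2.2 n (c i₀) (-(b i₀ • w)) ε hε
    have h1 := iso X t m (fun l k => b l • x (n + m) k) c i₀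
    have h2 : ∀ l, av1 m (fun k => b l • x (n + m) k) (c l) = b l • x n (c l) := by
      intro l
      have := (jen X x hx).1 n m (c l)
      rw [← this]
      simp only [av1]
      rw [← Finset.smul_sum, smul_comm]
    have h3 : (fun k => ‖(∑ l ∈ univ.erase i₀, av1 m (fun k => b l • x (n + m) k) (c l)) +
        b i₀ • x (n + m) k‖ ^ 2) = fun k => ‖x (n + m) k - -(b i₀ • w)‖ ^ 2 := by
      funext k
      have e : (∑ l ∈ univ.erase i₀, av1 m (fun k => b l • x (n + m) k) (c l)) = w := by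
        rw [hw]
        exact Finset.sum_congr rfl fun l _ => h2 l
      rw [e]
      have e2 : w + b i₀ • x (n + m) k = b i₀ • (x (n + m) k - -(b i₀ • w)) := by
        rw [sub_neg_eq_add, smul_add, smul_smul, hsq, one_smul, add_comm]
      rw [e2, norm_smul, Real.norm_eq_abs, hb₀, one_mul]
    rw [h3] at h1
    have h4 : av m (fun d => ‖∑ l, b l • x (n + m) (d l)‖ ^ 2) c ≤ ‖J x n c b‖ ^ 2 + κ :=
      hs m b hb
    have h5 := hh' i₀
    linarith
  have h6 : δ ^ 2 ≤ ‖J x n c b‖ ^ 2 + κ := by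
    by_contra hc
    push Not at hc
    have := key ((δ ^ 2 - (‖J x n c b‖ ^ 2 + κ)) / 2) (by linarith)
    linarith
  have h7 : (δ / 2) ^ 2 ≤ ‖J x n c b‖ ^ 2 := by nlinarith
  exact le_of_sq_le_sq h7 (norm_nonneg _)
where
  le_of_sq_le_sq {a b : ℝ} (h : a ^ 2 ≤ b ^ 2) (hb : 0 ≤ b) : a ≤ b := by
    nlinarith [sq_nonneg (a - b)]

theorem lbd (hhb : HhbStmt) (iso : IsoStmt) (jen : JenStmt) : LbdStmt := by
  classical
  intro X _ _ x hx t n c κ δ hδ hκ hs hh' a i
  obtain ⟨i₀, -, hi₀⟩ := Finset.exists_max_image (univ : Finset (Fin t)) (fun i => |a i|)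
    ⟨i, Finset.mem_univ i⟩
  have hle : |a i| ≤ |a i₀| := hi₀ i (Finset.mem_univ i)
  by_cases h0 : |a i₀| = 0
  · have : |a i| = 0 := le_antisymm (h0 ▸ hle) (abs_nonneg _)
    rw [this, mul_zero]
    exact norm_nonneg _
  · have hpos : 0 < |a i₀| := lt_of_le_of_ne (abs_nonneg _) (Ne.symm h0)
    have hcore := lbd_core hhb iso jen x hx n c κ δ hδ hκ hs hh' (fun l => a l / |a i₀|)
      (by
        intro l
        rw [abs_div, abs_abs, div_le_one hpos]
        exact hi₀ l (Finset.mem_univ l)) i₀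
      (by rw [abs_div, abs_abs, div_self h0])
    have hJ : J x n c a = |a i₀| • J x n c (fun l => a l / |a i₀|) := by
      unfold J
      rw [Finset.smul_sum]
      apply Finset.sum_congr rfl
      intro l _
      rw [smul_smul, mul_div_cancel₀ _ h0]
    rw [hJ, norm_smul, Real.norm_eq_abs, abs_abs]
    calc δ / 2 * |a i| ≤ δ / 2 * |a i₀| := mul_le_mul_of_nonneg_left hle (by linarith)
      _ = |a i₀| * (δ / 2) := by ring
      _ ≤ _ := mul_le_mul_of_nonneg_left hcore hpos.le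

end Pool.Agent.BC.H54
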