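import Pool.Agent.Helper54_BC.Kit

/-!
# BC, module NOD: a good starting node
-/

set_option autoImplicit false

open Finset

noncomputable section

namespace Pool.Agent.BC.H54

theorem nod (sta : StaStmt) (hlk : HlkStmt) (hhb : HhbStmt) (mar : MarStmt) : NodStmt := by
  classical
  intro X _ _ x hx j h hh0 hav κ hκ
  set c : Fin 1 → ℤ := fun _ => j with hc
  obtain ⟨m₀, hm₀⟩ := sta X x hx 1 0 c κ (h / 8) hκ (by linarith)
  obtain ⟨m₁, hm₁⟩ := hlk X x hx 0 j κ (h / 8) hκ (by linarith)
  set m := max m₀ m₁ with hm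
  have e1 := hm₀ m (le_max_left _ _)
  have e2 := hm₁ m (le_max_right _ _)
  have e2' : bad m (fun d => Stw x κ (0 + m) (d 0)) c ≤ h / 8 := by
    rw [bad_coord mar m (0 : Fin 1) (fun k => Stw x κ (0 + m) k) c]
    exact e2
  have hb := (hhb X x hx).1
  -- the third event
  have e3 : bad m (fun d => h / 2 ≤ hh x m (d 0)) c ≤ 1 - h / 2 := by
    have h1 : av m (fun d => hh x m (d 0)) c = av1 m (hh x m) j :=
      (mar ℝ m).2 1 0 (hh x m) c
    have h2 : h ≤ av m (fun d => hh x m (d 0)) c := by rw [h1]; exact hav m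
    have hle1 : h ≤ 1 := by
      refine h2.trans ?_
      refine (av_mono m c (fun d => (hb m (d 0)).2)).trans (le_of_eq ?_)
      exact av_const m 1 c
    have h3 : av m (fun d => hh x m (d 0)) c ≤
        1 - (1 - h / 2) * bad m (fun d => h / 2 ≤ hh x m (d 0)) c := by
      have h4 : (1 : ℝ) - (1 - h / 2) * bad m (fun d => h / 2 ≤ hh x m (d 0)) c =
          av m (fun d => (1 : ℝ) - (1 - h / 2) *
            (if h / 2 ≤ hh x m (d 0) then (0 : ℝ) else 1)) c := by
        rw [av_sub, av_const, av_mul]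
        rfl
      rw [h4]
      apply av_mono
      intro d
      by_cases hd : h / 2 ≤ hh x m (d 0)
      · rw [if_pos hd]
        have := (hb m (d 0)).2
        linarith
      · rw [if_neg hd]
        push Not at hd
        linarith
    have hpos : 0 < 1 - h / 2 := by linarith
    have h5 : (1 - h / 2) * bad m (fun d => h / 2 ≤ hh x m (d 0)) c ≤ 1 - h := by linarith
    have h6 : (1 - h / 2) * bad m (fun d => h / 2 ≤ hh x m (d 0)) c ≤
        (1 - h / 2) * (1 - h / 2) := by nlinarith
    exact le_of_mul_le_mul_left h6 hpos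
  have hall := (bad_and m (fun d => Stab x κ (0 + m) d ∧ Stw x κ (0 + m) (d 0))
    (fun d => h / 2 ≤ hh x m (d 0)) c)
  have hall2 := bad_and m (fun d => Stab x κ (0 + m) d) (fun d => Stw x κ (0 + m) (d 0)) c
  obtain ⟨r, ⟨hr1, hr2⟩, hr3⟩ := exists_of_bad_lt m
    (fun d => (Stab x κ (0 + m) d ∧ Stw x κ (0 + m) (d 0)) ∧ h / 2 ≤ hh x m (d 0)) c
    (by linarith)
  refine ⟨0 + m, dt m c r, hr1, ?_, ?_⟩
  · intro i
    rw [Subsingleton.elim i 0]
    exact hr2
  · intro i
    rw [Subsingleton.elim i 0, zero_add]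
    exact hr3

end Pool.Agent.BC.H54
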