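import Pool.Agent.BC.Stmts

/-!
# BC: small facts on averages (monotonicity, union bound, selection)
-/

set_option autoImplicit false

open Finset

noncomputable section

namespace Pool.Agent.BC.H54

theorem card_pos' (t m : ℕ) : (0 : ℝ) < ((2 : ℝ) ^ m) ^ t := by positivity

theorem card_fin (t m : ℕ) : (Fintype.card (Fin t → Fin (2 ^ m)) : ℝ) = ((2 : ℝ) ^ m) ^ t := by
  simp

theorem av_eq {t : ℕ} (m : ℕ) (G : (Fin t → ℤ) → ℝ) (c : Fin t → ℤ) :
    av m G c = (((2 : ℝ) ^ m) ^ t)⁻¹ * ∑ r : Fin t → Fin (2 ^ m), G (dt m c r) := by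
  simp [av]

theorem av_const {t : ℕ} (m : ℕ) (b : ℝ) (c : Fin t → ℤ) : av m (fun _ => b) c = b := by
  rw [av_eq, Finset.sum_const, Finset.card_univ, nsmul_eq_mul, card_fin]
  field_simp

theorem av_mono {t : ℕ} (m : ℕ) {G H : (Fin t → ℤ) → ℝ} (c : Fin t → ℤ)
    (h : ∀ d, G d ≤ H d) : av m G c ≤ av m H c := by
  rw [av_eq, av_eq]
  apply mul_le_mul_of_nonneg_left _ (by positivity)
  exact Finset.sum_le_sum fun r _ => h _

theorem av_mono' {t : ℕ} (m : ℕ) {G H : (Fin t → ℤ) → ℝ} (c : Fin t → ℤ)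
    (h : ∀ r, G (dt m c r) ≤ H (dt m c r)) : av m G c ≤ av m H c := by
  rw [av_eq, av_eq]
  apply mul_le_mul_of_nonneg_left _ (by positivity)
  exact Finset.sum_le_sum fun r _ => h _

theorem av_lt {t : ℕ} (m : ℕ) {G H : (Fin t → ℤ) → ℝ} (c : Fin t → ℤ)
    (h : ∀ r, G (dt m c r) ≤ H (dt m c r)) (h' : ∃ r, G (dt m c r) < H (dt m c r)) :
    av m G c < av m H c := by
  rw [av_eq, av_eq]
  apply mul_lt_mul_of_pos_left _ (by positivity)
  obtain ⟨r, hr⟩ := h'
  exact Finset.sum_lt_sum (fun r _ => h r) ⟨r, Finset.mem_univ r, hr⟩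

theorem av_add {t : ℕ} (m : ℕ) (G H : (Fin t → ℤ) → ℝ) (c : Fin t → ℤ) :
    av m (fun d => G d + H d) c = av m G c + av m H c := by
  rw [av_eq, av_eq, av_eq, Finset.sum_add_distrib, mul_add]

theorem av_sub {t : ℕ} (m : ℕ) (G H : (Fin t → ℤ) → ℝ) (c : Fin t → ℤ) :
    av m (fun d => G d - H d) c = av m G c - av m H c := by
  rw [av_eq, av_eq, av_eq, Finset.sum_sub_distrib, mul_sub]

theorem av_mul {t : ℕ} (m : ℕ) (b : ℝ) (G : (Fin t → ℤ) → ℝ) (c : Fin t → ℤ) :
    av m (fun d => b * G d) c = b * av m G c := by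
  rw [av_eq, av_eq, ← Finset.mul_sum]
  ring

theorem av_sum {t : ℕ} (m : ℕ) {ι : Type} (S : Finset ι) (G : ι → (Fin t → ℤ) → ℝ)
    (c : Fin t → ℤ) : av m (fun d => ∑ i ∈ S, G i d) c = ∑ i ∈ S, av m (G i) c := by
  simp only [av_eq]
  rw [Finset.sum_comm, ← Finset.mul_sum]

theorem bad_nonneg {t : ℕ} (m : ℕ) (A : (Fin t → ℤ) → Prop) (c : Fin t → ℤ) :
    0 ≤ bad m A c := by
  classical
  unfold bad
  refine (av_const m 0 c).symm.trans_le ?_
  apply av_mono
  intro d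
  split_ifs <;> norm_num

theorem bad_mono {t : ℕ} (m : ℕ) {A B : (Fin t → ℤ) → Prop} (c : Fin t → ℤ)
    (h : ∀ d, A d → B d) : bad m B c ≤ bad m A c := by
  classical
  unfold bad
  apply av_mono
  intro d
  by_cases hA : A d
  · rw [if_pos hA, if_pos (h d hA)]
  · rw [if_neg hA]
    split_ifs <;> norm_num

theorem bad_and {t : ℕ} (m : ℕ) (A B : (Fin t → ℤ) → Prop) (c : Fin t → ℤ) :
    bad m (fun d => A d ∧ B d) c ≤ bad m A c + bad m B c := by
  classical
  unfold bad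
  rw [← av_add]
  apply av_mono
  intro d
  by_cases hA : A d <;> by_cases hB : B d <;> simp [hA, hB]

theorem bad_forall {t : ℕ} (m : ℕ) {ι : Type} (S : Finset ι) (A : ι → (Fin t → ℤ) → Prop)
    (c : Fin t → ℤ) : bad m (fun d => ∀ i ∈ S, A i d) c ≤ ∑ i ∈ S, bad m (A i) c := by
  classical
  unfold bad
  rw [← av_sum]
  apply av_mono
  intro d
  by_cases h : ∀ i ∈ S, A i d
  · rw [if_pos h]
    apply Finset.sum_nonneg
    intro i _
    split_ifs <;> norm_num
  · rw [if_neg h]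
    push Not at h
    obtain ⟨i, hi, hA⟩ := h
    have : (if A i d then (0 : ℝ) else 1) ≤ ∑ j ∈ S, (if A j d then (0 : ℝ) else 1) := by
      apply Finset.single_le_sum (f := fun j => if A j d then (0 : ℝ) else 1) _ hi
      intro j _
      split_ifs <;> norm_num
    rw [if_neg hA] at this
    exact this

theorem exists_of_bad_lt {t : ℕ} (m : ℕ) (A : (Fin t → ℤ) → Prop) (c : Fin t → ℤ)
    (h : bad m A c < 1) : ∃ r, A (dt m c r) := by
  classical
  by_contra hc
  push Not at hc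
  have : bad m A c = 1 := by
    unfold bad
    refine Eq.trans ?_ (av_const m 1 c)
    rw [av_eq, av_eq]
    congr 1
    apply Finset.sum_congr rfl
    intro r _
    rw [if_neg (hc r)]
  linarith

/-- selection: a descendant with `A` and `Φ ≤ Φ₀ / (1 - bad)` -/
theorem select {t : ℕ} (m : ℕ) (A : (Fin t → ℤ) → Prop) (c : Fin t → ℤ)
    (Φ : (Fin t → ℤ) → ℝ) (Φ₀ L : ℝ) (hΦ : ∀ d, 0 ≤ Φ d) (hav : av m Φ c ≤ Φ₀)
    (hb : bad m A c < 1) (hbL : 1 ≤ L * (1 - bad m A c)) :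
    ∃ r, A (dt m c r) ∧ Φ (dt m c r) ≤ L * Φ₀ := by
  classical
  have h0 : 0 ≤ Φ₀ := by
    refine le_trans ?_ hav
    refine (av_const m 0 c).symm.trans_le ?_
    exact av_mono m c hΦ
  by_contra hc
  push Not at hc
  obtain ⟨r₀, hr₀⟩ := exists_of_bad_lt m A c hb
  have h1 : av m (fun d => (L * Φ₀) * (1 - if A d then (0 : ℝ) else 1)) c < av m Φ c := by
    apply av_lt
    · intro r
      by_cases hA : A (dt m c r)
      · simp only [if_pos hA]
        have := hc r hA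
        linarith
      · simp only [if_neg hA]
        have := hΦ (dt m c r)
        linarith
    · refine ⟨r₀, ?_⟩
      simp only [if_pos hr₀]
      have := hc r₀ hr₀
      linarith
  rw [av_mul, av_sub, av_const] at h1
  have h2 : av m (fun d => if A d then (0 : ℝ) else 1) c = bad m A c := rfl
  rw [h2] at h1
  have h3 : Φ₀ ≤ L * Φ₀ * (1 - bad m A c) := by
    calc Φ₀ = Φ₀ * 1 := by ring
      _ ≤ Φ₀ * (L * (1 - bad m A c)) := mul_le_mul_of_nonneg_left hbL h0
      _ = _ := by ring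
  linarith

/-- marginal form of `bad1` -/
theorem bad_coord (mar : MarStmt) {t : ℕ} (m : ℕ) (i : Fin t) (A : ℤ → Prop) (c : Fin t → ℤ) :
    bad m (fun d => A (d i)) c = bad1 m A (c i) := by
  classical
  unfold bad bad1
  exact (mar ℝ m).2 t i (fun k => if A k then (0 : ℝ) else 1) c

end Pool.Agent.BC.H54
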