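import Pool.Agent.Helper54_BC.Kit

/-!
# BC, module STP: one step
-/

set_option autoImplicit false

open Finset

noncomputable section

namespace Pool.Agent.BC.H54

theorem Stab_mono {X : Type} [NormedAddCommGroup X] [NormedSpace ℝ X] (x : ℕ → ℤ → X) {t : ℕ}
    {κ κ' : ℝ} (h : κ ≤ κ') (n : ℕ) (c : Fin t → ℤ) (hs : Stab x κ n c) : Stab x κ' n c := by
  intro m a ha
  have := hs m a ha
  linarith

theorem Stw_mono {X : Type} [NormedAddCommGroup X] [NormedSpace ℝ X] (x : ℕ → ℤ → X)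
    {κ κ' : ℝ} (h : κ ≤ κ') (n : ℕ) (j : ℤ) (hs : Stw x κ n j) : Stw x κ' n j := by
  intro m
  have := hs m
  linarith

theorem Lo_mono {X : Type} [NormedAddCommGroup X] [NormedSpace ℝ X] (x : ℕ → ℤ → X) {t : ℕ}
    (s : Fin t) {η η' : ℝ} (h : η ≤ η') (n : ℕ) (c : Fin t → ℤ) (n' : ℕ) (c' : Fin (t + 1) → ℤ)
    (hs : Lo x s η n c n' c') : Lo x s η' n c n' c' := by
  intro a ha
  have := hs a ha
  linarith

theorem Up_mono {X : Type} [NormedAddCommGroup X] [NormedSpace ℝ X] (x : ℕ → ℤ → X) {t : ℕ}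
    (s : Fin t) {η η' : ℝ} (h : η ≤ η') (n : ℕ) (c : Fin t → ℤ) (n' : ℕ) (c' : Fin (t + 1) → ℤ)
    (hs : Up x s η n c n' c') : Up x s η' n c n' c' := by
  intro a ha
  have := hs a ha
  linarith

theorem stp (sta : StaStmt) (hlk : HlkStmt) (hpe : HpeStmt) (rdo : RdoStmt) (rup : RupStmt)
    (mar : MarStmt) : StpStmt := by
  classical
  intro X _ _ t s η hη
  -- the proportion allowed for each of the five events
  set η₁ : ℝ := η / (5 * (1 + η)) with hη₁
  have hη₁0 : 0 < η₁ := by positivity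
  have hη₁5 : 5 * η₁ * (1 + η) = η := by
    rw [hη₁]; field_simp
  have hη₁1 : 5 * η₁ < 1 := by
    by_contra hc
    push Not at hc
    nlinarith
  set η₂ : ℝ := min η η₁ with hη₂
  have hη₂0 : 0 < η₂ := lt_min hη hη₁0
  obtain ⟨κ₁, hκ₁, H1⟩ := rdo X t s η₂ hη₂0
  obtain ⟨κ₂, hκ₂, H2⟩ := rup X t s η₂ hη₂0
  set T : ℝ := (t : ℝ) + 1 with hT
  have hT0 : 0 < T := by positivity
  set κ₃ : ℝ := η ^ 2 * η₁ / T with hκ₃d
  have hκ₃ : 0 < κ₃ := by positivity
  refine ⟨min κ₁ (min κ₂ κ₃), lt_min hκ₁ (lt_min hκ₂ hκ₃), ?_⟩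
  intro x n c hx hst hsw κ' hκ' Φ Φ₀ hΦ hav
  have hst1 : Stab x κ₁ n c := Stab_mono x (min_le_left _ _) n c hst
  have hst2 : Stab x κ₂ n c :=
    Stab_mono x ((min_le_right _ _).trans (min_le_left _ _)) n c hst
  have hsw3 : ∀ i, Stw x κ₃ n (c i) := fun i =>
    Stw_mono x ((min_le_right _ _).trans (min_le_right _ _)) n (c i) (hsw i)
  set C : Fin (t + 1) → ℤ := c ∘ pr s with hC
  obtain ⟨m₀, hm₀⟩ := sta X x hx (t + 1) n C κ' η₁ hκ' hη₁0
  have hex : ∀ i : Fin (t + 1), ∃ m₁, ∀ m, m₁ ≤ m →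
      bad1 m (fun d => Stw x κ' (n + m) d) (C i) ≤ η₁ / T :=
    fun i => hlk X x hx n (C i) κ' (η₁ / T) hκ' (by positivity)
  choose m₁ hm₁ using hex
  set m : ℕ := max m₀ (univ.sup m₁) with hm
  have hmi : ∀ i, m₁ i ≤ m := fun i =>
    (Finset.le_sup (Finset.mem_univ i)).trans (le_max_right _ _)
  -- the five events
  have e1 : bad m (fun d => Stab x κ' (n + m) d) C ≤ η₁ := hm₀ m (le_max_left _ _)
  have hcard : ∑ _i : Fin (t + 1), η₁ / T = η₁ := by
    rw [Finset.sum_const, Finset.card_univ, Fintype.card_fin, nsmul_eq_mul]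
    push_cast
    rw [← hT]
    field_simp
  have e2 : bad m (fun d => ∀ i ∈ (univ : Finset (Fin (t + 1))), Stw x κ' (n + m) (d i)) C ≤
      η₁ := by
    refine (bad_forall m univ (fun i d => Stw x κ' (n + m) (d i)) C).trans ?_
    rw [← hcard]
    apply Finset.sum_le_sum
    intro i _
    rw [bad_coord mar m i (fun k => Stw x κ' (n + m) k) C]
    exact hm₁ i m (hmi i)
  have e3 : bad m (fun d => ∀ i ∈ (univ : Finset (Fin (t + 1))),
      hh x n (c (pr s i)) - η ≤ hh x (n + m) (d i)) C ≤ η₁ := by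
    refine (bad_forall m univ (fun i d => hh x n (c (pr s i)) - η ≤ hh x (n + m) (d i))
      C).trans ?_
    rw [← hcard]
    apply Finset.sum_le_sum
    intro i _
    rw [bad_coord mar m i (fun k => hh x n (c (pr s i)) - η ≤ hh x (n + m) k) C]
    refine (hpe X x hx n m (C i) κ₃ η hη (hsw3 (pr s i))).trans (le_of_eq ?_)
    rw [hκ₃d]
    field_simp
  have e4 : bad m (fun d => Lo x s η n c (n + m) d) C ≤ η₁ := by
    refine le_trans (bad_mono m C (fun d hd => Lo_mono x s (min_le_left η η₁) n c (n + m) d hd)) ?_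
    exact (H1 x n c hx hst1 m).trans (min_le_right _ _)
  have e5 : bad m (fun d => Up x s η n c (n + m) d) C ≤ η₁ := by
    refine le_trans (bad_mono m C (fun d hd => Up_mono x s (min_le_left η η₁) n c (n + m) d hd)) ?_
    exact (H2 x n c hx hst2 m).trans (min_le_right _ _)
  have u1 := bad_and m (fun d => Stab x κ' (n + m) d)
    (fun d => ∀ i ∈ (univ : Finset (Fin (t + 1))), Stw x κ' (n + m) (d i)) C
  have u2 := bad_and m (fun d => Stab x κ' (n + m) d ∧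
    ∀ i ∈ (univ : Finset (Fin (t + 1))), Stw x κ' (n + m) (d i))
    (fun d => ∀ i ∈ (univ : Finset (Fin (t + 1))),
      hh x n (c (pr s i)) - η ≤ hh x (n + m) (d i)) C
  have u3 := bad_and m (fun d => Lo x s η n c (n + m) d) (fun d => Up x s η n c (n + m) d) C
  have u4 := bad_and m (fun d => (Stab x κ' (n + m) d ∧
    ∀ i ∈ (univ : Finset (Fin (t + 1))), Stw x κ' (n + m) (d i)) ∧
    ∀ i ∈ (univ : Finset (Fin (t + 1))),
      hh x n (c (pr s i)) - η ≤ hh x (n + m) (d i))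
    (fun d => Lo x s η n c (n + m) d ∧ Up x s η n c (n + m) d) C
  have htot : bad m (fun d => ((Stab x κ' (n + m) d ∧
    ∀ i ∈ (univ : Finset (Fin (t + 1))), Stw x κ' (n + m) (d i)) ∧
    ∀ i ∈ (univ : Finset (Fin (t + 1))),
      hh x n (c (pr s i)) - η ≤ hh x (n + m) (d i)) ∧
    (Lo x s η n c (n + m) d ∧ Up x s η n c (n + m) d)) C ≤ 5 * η₁ := by linarith
  obtain ⟨r, ⟨⟨⟨hr1, hr2⟩, hr3⟩, hr4, hr5⟩, hr6⟩ := select m
    (fun d => ((Stab x κ' (n + m) d ∧
    ∀ i ∈ (univ : Finset (Fin (t + 1))), Stw x κ' (n + m) (d i)) ∧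
    ∀ i ∈ (univ : Finset (Fin (t + 1))),
      hh x n (c (pr s i)) - η ≤ hh x (n + m) (d i)) ∧
    (Lo x s η n c (n + m) d ∧ Up x s η n c (n + m) d)) C (Φ (n + m)) Φ₀ (1 + η) (hΦ (n + m))
    (hav m) (by linarith) (by
      have h1 : (1 + η) * (1 - 5 * η₁) = 1 := by nlinarith
      nlinarith)
  exact ⟨m, dt m C r, hr1, fun i => hr2 i (Finset.mem_univ i),
    fun i => hr3 i (Finset.mem_univ i), hr4, hr5, hr6⟩

end Pool.Agent.BC.H54
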